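import Mathlib

/-!
# Project LK, part GK1: weighted Mantel theorem for the graph "sum in `{0, r, -r}`"
-/

set_option autoImplicit false

namespace Pool.Agent.N878.LK

open Finset

variable {Γ : Type*} [AddCommGroup Γ]

open Classical in
/-- weighted Mantel theorem -/
lemma wmantel {α : Type*} (C : Finset α) (G : α → α → Prop) (m : α → ℝ) (hm : ∀ v, 0 ≤ m v)
    (hs : ∀ s ∈ C, ∀ t ∈ C, G s t → G t s)
    (h3 : ∀ s ∈ C, ∀ t ∈ C, ∀ u ∈ C, G s t → G s u → G t u → False) :
    (∑ s ∈ C, ∑ t ∈ C, if G s t then m s * m t else 0) ≤ 1 / 2 * (∑ v ∈ C, m v) ^ 2 := by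
  set w : α → ℝ := fun s => ∑ t ∈ C, if G s t then m t else 0 with hw
  set M := ∑ v ∈ C, m v with hM
  have hM0 : 0 ≤ M := sum_nonneg fun v _ => hm v
  have hsum : ∀ s ∈ C, ∀ t ∈ C, G s t → w s + w t ≤ M := by
    intro s hsC t htC hst
    rw [hw, hM, ← sum_add_distrib]
    refine sum_le_sum fun u hu => ?_
    by_cases h1 : G s u
    · by_cases h2 : G t u
      · exact absurd (h3 s hsC t htC u hu hst h1 h2) id
      · rw [if_pos h1, if_neg h2, add_zero]
    · by_cases h2 : G t u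
      · rw [if_neg h1, if_pos h2, zero_add]
      · rw [if_neg h1, if_neg h2, add_zero]
        exact hm u
  set e := ∑ s ∈ C, m s * w s with he
  have hLe : (∑ s ∈ C, ∑ t ∈ C, if G s t then m s * m t else 0) = e := by
    rw [he]
    refine sum_congr rfl fun s _ => ?_
    rw [hw, mul_sum]
    refine sum_congr rfl fun t _ => ?_
    split_ifs <;> simp
  rw [hLe]
  have hA : ∑ s ∈ C, ∑ t ∈ C, (if G s t then m s * m t else 0) * w s =
      ∑ s ∈ C, m s * w s ^ 2 := by
    refine sum_congr rfl fun s _ => ?_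
    rw [← sum_mul, sq, ← mul_assoc]
    congr 1
    rw [hw, mul_sum]
    refine sum_congr rfl fun t _ => ?_
    split_ifs <;> simp
  have hB : ∑ s ∈ C, ∑ t ∈ C, (if G s t then m s * m t else 0) * w t =
      ∑ s ∈ C, m s * w s ^ 2 := by
    rw [sum_comm, ← hA]
    refine sum_congr rfl fun s hsC => sum_congr rfl fun t htC => ?_
    have : G t s ↔ G s t := ⟨hs t htC s hsC, hs s hsC t htC⟩
    simp only [this, mul_comm (m t) (m s)]
  have hC : 2 * ∑ s ∈ C, m s * w s ^ 2 ≤ M * e := by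
    have h1 : 2 * ∑ s ∈ C, m s * w s ^ 2 =
        ∑ s ∈ C, ∑ t ∈ C, (if G s t then m s * m t else 0) * (w s + w t) := by
      simp only [mul_add, sum_add_distrib]
      rw [hA, hB]; ring
    rw [h1, ← hLe, mul_sum]
    refine sum_le_sum fun s hsC => ?_
    rw [mul_sum]
    refine sum_le_sum fun t htC => ?_
    split_ifs with h
    · rw [mul_comm M]
      exact mul_le_mul_of_nonneg_left (hsum s hsC t htC h) (mul_nonneg (hm s) (hm t))
    · simp
  have hCS : e ^ 2 ≤ M * ∑ s ∈ C, m s * w s ^ 2 := by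
    have h1 := sum_mul_sq_le_sq_mul_sq C (fun s => √(m s)) (fun s => √(m s) * w s)
    have e1 : ∑ s ∈ C, √(m s) * (√(m s) * w s) = e := by
      rw [he]
      refine sum_congr rfl fun s _ => ?_
      rw [← mul_assoc, Real.mul_self_sqrt (hm s)]
    have e2 : ∑ s ∈ C, √(m s) ^ 2 = M := by
      rw [hM]
      exact sum_congr rfl fun s _ => Real.sq_sqrt (hm s)
    have e3 : ∑ s ∈ C, (√(m s) * w s) ^ 2 = ∑ s ∈ C, m s * w s ^ 2 := by
      refine sum_congr rfl fun s _ => ?_
      rw [mul_pow, Real.sq_sqrt (hm s)]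
    rw [e1, e2, e3] at h1
    exact h1
  rcases le_or_gt e 0 with h0 | h0
  · have : 0 ≤ M ^ 2 := sq_nonneg M
    linarith
  · have h4 : e * (2 * e) ≤ e * M ^ 2 := by
      have h5 := mul_le_mul_of_nonneg_left hC hM0
      nlinarith
    have h6 := le_of_mul_le_mul_left h4 h0
    linarith

open Classical in
/-- GK1: weighted Mantel theorem for the graph "sum in `{0, r, -r}`" -/
theorem mantel {C : Finset Γ} (hne : ∀ s ∈ C, s ≠ -s) (m : Γ → ℝ) (hm : ∀ v, 0 ≤ m v) (r : Γ) :
    (∑ s ∈ C, ∑ t ∈ C, if s ≠ t ∧ (s + t = 0 ∨ s + t = r ∨ s + t = -r) then m s * m t else 0) ≤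
      1 / 2 * (∑ v ∈ C, m v) ^ 2 := by
  have key : ∀ x y z : Γ, x + y = 0 → (x + z) + (y + z) = 0 → z = -z := by
    intro x y z h1 h2
    apply eq_neg_of_add_eq_zero_left
    have : z + z = (x + z) + (y + z) - (x + y) := by abel
    rw [this, h1, h2, sub_zero]
  refine le_trans (le_of_eq (sum_congr rfl fun s _ => sum_congr rfl fun t _ => ?_))
    (wmantel C (fun s t => s ≠ t ∧ (s + t = 0 ∨ s + t = r ∨ s + t = -r)) m hm ?_ ?_)
  · congr
  · rintro s _ t _ ⟨h1, h2⟩
    exact ⟨h1.symm, by rwa [add_comm t s]⟩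
  · rintro s hs t ht u hu ⟨hst, h1⟩ ⟨hsu, h2⟩ ⟨htu, h3⟩
    rcases h1 with h1 | h1 | h1 <;> rcases h2 with h2 | h2 | h2 <;> rcases h3 with h3 | h3 | h3
    all_goals
      first
      | exact htu (add_left_cancel (h1.trans h2.symm))
      | exact hst (add_right_cancel (h2.trans h3.symm))
      | exact hsu (add_right_cancel (h1.trans (h3.symm.trans (add_comm t u))))
      | exact hne u hu (key s t u h1 (by rw [h2, h3]; abel))
      | exact hne t ht (key s u t h2 (by rw [h1, add_comm u t, h3]; abel))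
      | exact hne s hs (key t u s h3 (by rw [add_comm t s, add_comm u s, h1, h2]; abel))

end Pool.Agent.N878.LK
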